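import Mathlib

/-!
# CoP.B.Arens (about 80 lines)

`ψ_k → φ` in the compact-open topology, all homeomorphisms; `D₀` open with compact closure, `p ∈ D₀`; `O` preconnected, `φ p ∈ O` open, `closure O ⊆ φ '' D₀`. Then eventually `ψ_k ⁻¹' (closure O) ⊆ D₀`: `φ '' frontier D₀` misses `closure O`, so eventually `ψ_k` maps the compact set `frontier D₀` into the open set `(closure O)ᶜ` (`ContinuousMap.tendsto_nhds_compactOpen` or `ContinuousMap.isOpen_setOfPred_mapsTo`), and eventually `ψ_k p ∈ O` (evaluation is continuous). `ψ_k ⁻¹' closure O = (ψ_k).symm '' closure O` is preconnected (`IsPreconnected.closure`, `IsPreconnected.image`), misses `frontier D₀` and meets `D₀`; `D₀` and `(closure D₀)ᶜ` are open, disjoint and cover it, so it is contained in `D₀` (`IsPreconnected.subset_left_of_subset_union`).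
-/

open Set Filter
open scoped Topology

namespace CoP

theorem arens {X : Type*} [TopologicalSpace X] [T2Space X] (ψ : ℕ → X ≃ₜ X) (φ : X ≃ₜ X)
    (h : Tendsto (fun k => (⟨ψ k, (ψ k).continuous⟩ : C(X, X))) atTop
      (𝓝 (⟨φ, φ.continuous⟩ : C(X, X)))) {D₀ O : Set X} {p : X} (hD : IsOpen D₀)
    (hDc : IsCompact (closure D₀)) (hp : p ∈ D₀) (hO : IsOpen O) (hOc : IsPreconnected O)
    (hpO : φ p ∈ O) (hOD : closure O ⊆ φ '' D₀) :
    ∀ᶠ k in atTop, ψ k ⁻¹' (closure O) ⊆ D₀ := by
  have hfr : IsCompact (frontier D₀) :=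
    hDc.of_isClosed_subset isClosed_frontier frontier_subset_closure
  have hmap : MapsTo φ (frontier D₀) (closure O)ᶜ := by
    intro x hx hxO
    obtain ⟨y, hy, hxy⟩ := hOD hxO
    have h1 : y = x := φ.injective hxy
    rw [hD.frontier_eq] at hx
    rw [h1] at hy
    exact hx.2 hy
  have e1 : ∀ᶠ k in atTop, MapsTo (ψ k) (frontier D₀) (closure O)ᶜ :=
    h.eventually ((ContinuousMap.isOpen_setOfPred_mapsTo hfr isClosed_closure.isOpen_compl).mem_nhds
      hmap)
  have e2 : ∀ᶠ k in atTop, MapsTo (ψ k) {p} O :=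
    h.eventually ((ContinuousMap.isOpen_setOfPred_mapsTo isCompact_singleton hO).mem_nhds
      (fun x hx => by
        rw [mem_singleton_iff] at hx
        rw [hx]
        exact hpO))
  filter_upwards [e1, e2] with k h1 h2
  have hpre : IsPreconnected (ψ k ⁻¹' closure O) := by
    rw [← (ψ k).image_symm]
    exact hOc.closure.image _ (ψ k).symm.continuous.continuousOn
  refine hpre.subset_left_of_subset_union (v := (closure D₀)ᶜ) hD
    isClosed_closure.isOpen_compl ?_ ?_ ?_
  · exact disjoint_compl_right.mono_left subset_closure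
  · intro x hx
    by_cases hxD : x ∈ D₀
    · exact Or.inl hxD
    · refine Or.inr fun hxc => ?_
      have hxf : x ∈ frontier D₀ := by
        rw [hD.frontier_eq]
        exact ⟨hxc, hxD⟩
      exact h1 hxf hx
  · exact ⟨p, subset_closure (h2 (mem_singleton p)), hp⟩

end CoP
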