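import Mathlib
import Pool.Agent.Lib.CoP.M.Adapt

/-!
# CoP.B.Curve (about 150 lines): curves of a function on a Poisson manifold

A curve of `K` is a continuous `x : [0,1] → M` with `(F ∘ x)' = {K, F}(x)` for all smooth `F`.
* `exists_bump`: `SmoothBumpFunction` at `p` with `tsupport ⊆ O` (`SmoothBumpFunction.nhds_basis_tsupport`), as an element of `C^∞(M)`; it is `1` near `p`.
* `IsCurve.comp`: `F (ψ (x t)) = (F.comp ψ) (x t)`, derivative `{K ∘ ψ, F ∘ ψ}(x t) = {K, F}(ψ (x t))`.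
* `const_or_mem`: if `x t₀ ∉ S` then `A = {t ∈ [0,1] | x t = x t₀}` is closed in `[0,1]` (Hausdorff) and open in `[0,1]` (`hloc`), so `A = [0,1]` (`isPreconnected_Icc`).
* `IsCurve.const_or_mem`: `hloc`: for `s` near `t` in `[0,1]` (an interval `J` around `t`) `x s ∉ tsupport K`, so `K = 0` near `x s` and `(F ∘ x)' (s) = {K, F}(x s) = 0` (`br_const`), for all `F` on the same interval `J`; so `F (x s) = F (x t)` for all `F` (`Convex.is_const_of_fderivWithin_eq_zero` or `constant_of_has_deriv_right_zero`, mean value on the segment), and bump functions separate points.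
-/

open Set Filter Metric
open scoped Topology ContDiff Manifold

noncomputable section

namespace CoP

variable {E : Type*} [NormedAddCommGroup E] [NormedSpace ℝ E] [FiniteDimensional ℝ E]
  {M : Type*} [TopologicalSpace M] [ChartedSpace E M] [IsManifold 𝓘(ℝ, E) ∞ M] [T2Space M]

/-- A curve of `K` on `[0,1]`: the derivative of `F` along it is `{K, F}`. -/
structure IsCurve (π : Poisson E M) (K : C^∞⟮𝓘(ℝ, E), M; ℝ⟯) (x : ℝ → M) : Prop where
  cont : ContinuousOn x (Icc 0 1)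
  deriv : ∀ (F : C^∞⟮𝓘(ℝ, E), M; ℝ⟯), ∀ t ∈ Icc (0 : ℝ) 1,
    HasDerivWithinAt (fun s => F (x s)) (π.br K F (x t)) (Icc 0 1) t

theorem exists_bump (p : M) {O : Set M} (hO : O ∈ 𝓝 p) :
    ∃ χ : C^∞⟮𝓘(ℝ, E), M; ℝ⟯, (∀ᶠ x in 𝓝 p, χ x = 1) ∧ tsupport χ ⊆ O ∧
      HasCompactSupport χ ∧ (∀ x, 0 ≤ χ x) ∧ ∀ x, χ x ≤ 1 := by
  obtain ⟨b, -, hb⟩ := (SmoothBumpFunction.nhds_basis_tsupport (I := 𝓘(ℝ, E)) p).mem_iff.mp hO
  refine ⟨⟨b, b.contMDiff⟩, b.eventuallyEq_one, hb, b.hasCompactSupport, fun x => b.nonneg,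
    fun x => b.le_one⟩

theorem IsCurve.comp {π : Poisson E M} {K : C^∞⟮𝓘(ℝ, E), M; ℝ⟯} {x : ℝ → M}
    {ψ : C^∞⟮𝓘(ℝ, E), M; 𝓘(ℝ, E), M⟯} (hψ : IsPoissonMap π ψ) (hx : IsCurve π (K.comp ψ) x) :
    IsCurve π K (fun t => ψ (x t)) := by
  refine ⟨ψ.contMDiff.continuous.comp_continuousOn hx.cont, fun F t ht => ?_⟩
  have h1 := hx.deriv (F.comp ψ) t ht
  rw [hψ] at h1
  exact h1

theorem const_or_mem {X : Type*} [TopologicalSpace X] [T2Space X] {x : ℝ → X}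
    (hx : ContinuousOn x (Icc 0 1)) (S : Set X)
    (hloc : ∀ t ∈ Icc (0 : ℝ) 1, x t ∉ S → ∀ᶠ s in 𝓝[Icc 0 1] t, x s = x t) :
    (∀ t ∈ Icc (0 : ℝ) 1, x t ∈ S) ∨ ∀ t ∈ Icc (0 : ℝ) 1, x t = x 1 := by
  by_cases hS : ∀ t ∈ Icc (0 : ℝ) 1, x t ∈ S
  · exact Or.inl hS
  right
  push Not at hS
  obtain ⟨t₀, ht₀, hS₀⟩ := hS
  have key : ∀ t ∈ Icc (0 : ℝ) 1, x t = x t₀ := by
    -- work in the subtype
    let y : Icc (0 : ℝ) 1 → X := fun t => x t
    have hy : Continuous y := continuousOn_iff_continuous_domRestrict.mp hx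
    have hclosed : IsClosed {t | y t = x t₀} := isClosed_eq hy continuous_const
    have hopen : IsOpen {t | y t = x t₀} := by
      rw [isOpen_iff_mem_nhds]
      intro t ht
      have ht' : x t = x t₀ := ht
      have h1 := hloc t t.2 (by rw [ht']; exact hS₀)
      rw [nhdsWithin_eq_map_subtype_coe t.2, eventually_map] at h1
      filter_upwards [h1] with s hs
      show x s = x t₀
      rw [hs, ht']
    have huniv : {t | y t = x t₀} = univ :=
      IsClopen.eq_univ ⟨hclosed, hopen⟩ ⟨⟨t₀, ht₀⟩, rfl⟩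
    intro t ht
    have : (⟨t, ht⟩ : Icc (0 : ℝ) 1) ∈ {t | y t = x t₀} := by rw [huniv]; trivial
    exact this
  intro t ht
  rw [key t ht, key 1 ⟨zero_le_one, le_rfl⟩]

theorem IsCurve.const_or_mem {π : Poisson E M} {K : C^∞⟮𝓘(ℝ, E), M; ℝ⟯} {x : ℝ → M}
    (hx : IsCurve π K x) :
    (∀ t ∈ Icc (0 : ℝ) 1, x t ∈ tsupport K) ∨ ∀ t ∈ Icc (0 : ℝ) 1, x t = x 1 := by
  refine CoP.const_or_mem hx.cont (tsupport K) ?_
  intro t ht hxt
  -- a neighbourhood of `t` on which `x s ∉ tsupport K`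
  have h1 : ∀ᶠ s in 𝓝[Icc 0 1] t, x s ∈ (tsupport K)ᶜ :=
    (hx.cont t ht) ((isClosed_tsupport _).isOpen_compl.mem_nhds hxt)
  obtain ⟨ε, hε, hball⟩ := Metric.mem_nhdsWithin_iff.mp h1
  refine Metric.mem_nhdsWithin_iff.mpr ⟨ε, hε, ?_⟩
  rintro s ⟨hs, hs1⟩
  show x s = x t
  by_contra hne
  -- a function separating `x s` and `x t`
  obtain ⟨χ, hχ1, hχ2, -, -, -⟩ := exists_bump (E := E) (x t)
    (isOpen_compl_singleton.mem_nhds (show x t ∈ ({x s}ᶜ : Set M) from fun h => hne h.symm))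
  have hχt : χ (x t) = 1 := hχ1.self_of_nhds
  have hχs : χ (x s) = 0 := by
    by_contra h
    exact hχ2 (subset_tsupport _ h) rfl
  have hconv : Convex ℝ (ball t ε ∩ Icc 0 1) := (convex_ball t ε).inter (convex_Icc 0 1)
  have hd : ∀ u ∈ ball t ε ∩ Icc 0 1,
      HasDerivWithinAt (fun s => χ (x s)) 0 (ball t ε ∩ Icc 0 1) u := by
    intro u hu
    have h2 := (hx.deriv χ u hu.2).mono (inter_subset_right : ball t ε ∩ Icc 0 1 ⊆ Icc 0 1)
    have h3 : x u ∈ (tsupport K)ᶜ := hball hu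
    have h4 : ∀ᶠ q in 𝓝 (x u), K q = 0 := by
      filter_upwards [(isClosed_tsupport _).isOpen_compl.mem_nhds h3] with q hq
      exact image_eq_zero_of_notMem_tsupport hq
    rwa [br_const π h4] at h2
  have h5 := hconv.norm_image_sub_le_of_norm_hasDerivWithin_le (C := 0)
    hd (fun u _ => by simp) ⟨mem_ball_self hε, ht⟩ ⟨hs, hs1⟩
  simp only [zero_mul] at h5
  have h6 : χ (x s) - χ (x t) = 0 := norm_le_zero_iff.mp h5
  rw [hχs, hχt] at h6
  norm_num at h6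

end CoP
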