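import Mathlib
import Pool.Agent.Lib.CoP.B.Curve
import Pool.Agent.Lib.CoP.A.LR

/-!
# CoP.B.Posit (about 200 lines): small functions supported near an adapted point have a curve from `N` to every ball

`U = (J '' {z | R/4 ≤ ‖z‖ ≤ R/2})ᶜ`: open (image of a compact set, Hausdorff), contains `J 0` (injectivity). Given `B ∈ 𝓝 (J 0)` choose `0 < r < R/4` with `J '' closedBall 0 r ⊆ B` and `c` from `lrPrime hr`. Let `K` with `tsupport K ⊆ U`, `|K| ≤ c`. `H z = if ‖z‖ < R/2 then K (J z) else 0`. `H = 0` on `{R/4 < ‖z‖}` (for `‖z‖ < R/2` because `J z ∉ U ⊇ tsupport K`), so `H` is smooth there; on `ball 0 (R/2)` `H = K ∘ J` is smooth; the two open sets cover. `HasCompactSupport H` (`H = 0` off `closedBall 0 (R/4)`), `|H| ≤ c`. `lrPrime` gives `z`. Claim `‖z t‖ ≤ R/4` for all `t ∈ [0,1]`: `const_or_mem` with `S = closedBall 0 (R/4)` (if `‖z t‖ > R/4` then `H = 0` near `z s` for `s` near `t`, `z' = XH H (z s) = 0`, so `z` is constant near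 `t`), and `z 1 ∈ closedBall 0 r`. Put `x t = J (z t)`. `x` is a curve of `K`: `F ∘ J` is differentiable at `z t`, `(F ∘ J ∘ z)' = fderiv (F ∘ J) (z t) (XH H (z t)) = pb H (F ∘ J) (z t) = pb (K ∘ J) (F ∘ J) (z t) = {K, F}(x t)` (`H = K ∘ J` near `z t`; `fderiv G z (XH H z) = pb H G z` by expanding `XH H z = ∑ i, (gP H z i • (single i 1, 0) - gQ H z i • (0, single i 1))`). `x 0 = J ((z 0).1, 0) ∈ N` by `real`, `x 1 ∈ B`.
-/

open Set Filter Metric
open scoped Topology ContDiff Manifold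

noncomputable section

namespace CoP

variable {E : Type*} [NormedAddCommGroup E] [NormedSpace ℝ E] [FiniteDimensional ℝ E]
  {M : Type*} [TopologicalSpace M] [ChartedSpace E M] [IsManifold 𝓘(ℝ, E) ∞ M] [T2Space M]

private theorem fderiv_XH {n : ℕ} (H G : Z n → ℝ) (z : Z n) :
    fderiv ℝ G z (XH H z) = pb H G z := by
  have h1 : ∀ a b : Fin n → ℝ, ((a, b) : Z n) =
      ∑ i, (a i • ((Pi.single i (1 : ℝ), 0) : Z n) + b i • ((0, Pi.single i (1 : ℝ)) : Z n)) := by
    intro a b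
    rw [Finset.sum_add_distrib]
    ext l
    · simp [Prod.fst_sum, Finset.sum_apply, Pi.single_apply]
    · simp [Prod.snd_sum, Finset.sum_apply, Pi.single_apply]
  unfold XH pb
  rw [h1, map_sum]
  refine Finset.sum_congr rfl fun i _ => ?_
  rw [map_add, map_smul, map_smul, smul_eq_mul, smul_eq_mul]
  unfold gQ gP
  ring

private theorem XH_congr {n : ℕ} {H G : Z n → ℝ} {z : Z n} (h : H =ᶠ[𝓝 z] G) : XH H z = XH G z := by
  unfold XH gP gQ
  rw [h.fderiv_eq]

private theorem XH_zero {n : ℕ} (z : Z n) : XH (fun _ : Z n => (0 : ℝ)) z = 0 := by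
  unfold XH gP gQ
  simp
  rfl

theorem posit (π : Poisson E M) {N : Set M} {n : ℕ} {R : ℝ} {J : Z n → M}
    (hJ : Adapted π N n R J) :
    ∃ U : Set M, IsOpen U ∧ J 0 ∈ U ∧ ∀ B ∈ 𝓝 (J 0), ∃ c > (0 : ℝ),
      ∀ K : C^∞⟮𝓘(ℝ, E), M; ℝ⟯, tsupport K ⊆ U → (∀ x, |K x| ≤ c) →
        ∃ x : ℝ → M, IsCurve π K x ∧ x 0 ∈ N ∧ x 1 ∈ B := by
  have hR := hJ.pos
  have hJc : ContinuousOn J (ball 0 R) := hJ.smooth.continuousOn
  have hJat : ∀ z ∈ ball (0 : Z n) R, ContMDiffAt 𝓘(ℝ, Z n) 𝓘(ℝ, E) ∞ J z := fun z hz =>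
    (hJ.smooth z hz).contMDiffAt (isOpen_ball.mem_nhds hz)
  have hFJ : ∀ F : C^∞⟮𝓘(ℝ, E), M; ℝ⟯, ∀ z ∈ ball (0 : Z n) R,
      ContDiffAt ℝ ∞ (fun w => F (J w)) z := by
    intro F z hz
    exact ((F.contMDiff.contMDiffAt).comp z (hJat z hz)).contDiffAt
  have hsub : closedBall (0 : Z n) (R / 2) \ ball 0 (R / 4) ⊆ ball 0 R := fun z hz =>
    closedBall_subset_ball (by linarith) hz.1
  have hcomp : IsCompact (closedBall (0 : Z n) (R / 2) \ ball 0 (R / 4)) :=
    (isCompact_closedBall _ _).diff isOpen_ball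
  refine ⟨(J '' (closedBall 0 (R / 2) \ ball 0 (R / 4)))ᶜ,
    (hcomp.image_of_continuousOn (hJc.mono hsub)).isClosed.isOpen_compl, ?_, ?_⟩
  · rintro ⟨z, hz, hz0⟩
    have h1 := hJ.inj (hsub hz) (mem_ball_self hR) hz0
    exact hz.2 (by rw [h1]; exact mem_ball_self (by linarith))
  intro B hB
  have hc0 : ContinuousAt J 0 := (hJat 0 (mem_ball_self hR)).continuousAt
  obtain ⟨ε, hε, hεB⟩ := Metric.mem_nhds_iff.1 (hc0.preimage_mem_nhds hB)
  obtain ⟨r, hr, hrε, hrR⟩ : ∃ r : ℝ, 0 < r ∧ r < ε ∧ r < R / 4 :=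
    ⟨min (ε / 2) (R / 8), lt_min (by linarith) (by linarith),
      (min_le_left _ _).trans_lt (by linarith), (min_le_right _ _).trans_lt (by linarith)⟩
  obtain ⟨c, hc, hlr⟩ := lrPrime (n := n) hr
  refine ⟨c, hc, fun K hK hKc => ?_⟩
  classical
  set H : Z n → ℝ := fun z => if ‖z‖ < R / 2 then K (J z) else 0 with hH
  have hH0 : ∀ z : Z n, R / 4 ≤ ‖z‖ → H z = 0 := by
    intro z hz
    simp only [hH]
    split_ifs with h
    · by_contra hne
      have h1 : J z ∈ tsupport K := by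
        by_contra h2
        exact hne (image_eq_zero_of_notMem_tsupport h2)
      refine hK h1 ⟨z, ⟨?_, ?_⟩, rfl⟩
      · rw [mem_closedBall_zero_iff]; exact h.le
      · rw [mem_ball_zero_iff]; exact not_lt.2 hz
    · rfl
  have hHJ : ∀ z : Z n, ‖z‖ < R / 2 → H =ᶠ[𝓝 z] fun w => K (J w) := by
    intro z hz
    have h1 : {w : Z n | ‖w‖ < R / 2} ∈ 𝓝 z :=
      (isOpen_lt continuous_norm continuous_const).mem_nhds hz
    filter_upwards [h1] with w hw
    simp only [hH]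
    exact if_pos hw
  have hHz : ∀ z : Z n, R / 4 < ‖z‖ → H =ᶠ[𝓝 z] fun _ => (0 : ℝ) := by
    intro z hz
    have h1 : {w : Z n | R / 4 < ‖w‖} ∈ 𝓝 z :=
      (isOpen_lt continuous_const continuous_norm).mem_nhds hz
    filter_upwards [h1] with w hw
    exact hH0 w (le_of_lt hw)
  have hHs : ContDiff ℝ ∞ H := by
    rw [contDiff_iff_contDiffAt]
    intro z
    by_cases hz : ‖z‖ < R / 2
    · refine ContDiffAt.congr_of_eventuallyEq (hFJ K z ?_) (hHJ z hz)
      rw [mem_ball_zero_iff]; linarith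
    · exact contDiffAt_const.congr_of_eventuallyEq (hHz z (by linarith [not_lt.1 hz]))
  have hHcs : HasCompactSupport H := by
    refine HasCompactSupport.intro (isCompact_closedBall (0 : Z n) (R / 4)) fun z hz => ?_
    rw [mem_closedBall_zero_iff, not_le] at hz
    exact hH0 z hz.le
  have hHb : ∀ z, |H z| ≤ c := by
    intro z
    simp only [hH]
    split_ifs
    · exact hKc _
    · rw [abs_zero]; exact hc.le
  obtain ⟨z, hz, hz0, hz1⟩ := hlr H hHs hHcs hHb
  have hzc : ContinuousOn z (Icc 0 1) := fun t ht => (hz t ht).continuousWithinAt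
  have hbd : ∀ t ∈ Icc (0 : ℝ) 1, ‖z t‖ ≤ R / 4 := by
    have h1 := const_or_mem hzc (closedBall (0 : Z n) (R / 4)) (by
      intro t ht hzt
      rw [mem_closedBall_zero_iff, not_le] at hzt
      have h2 : {w : Z n | R / 4 < ‖w‖} ∈ 𝓝 (z t) :=
        (isOpen_lt continuous_const continuous_norm).mem_nhds hzt
      have h3 := (hzc t ht).preimage_mem_nhdsWithin h2
      obtain ⟨δ, hδ, hδs⟩ := Metric.mem_nhdsWithin_iff.1 h3
      have h4 : ball t δ ∩ Icc 0 1 ∈ 𝓝[Icc 0 1] t := by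
        rw [inter_comm]
        exact inter_mem_nhdsWithin _ (ball_mem_nhds t hδ)
      filter_upwards [h4] with s hs
      have h5 : ‖z s - z t‖ ≤ 0 * ‖s - t‖ := by
        refine Convex.norm_image_sub_le_of_norm_hasDerivWithin_le (f' := fun _ => (0 : Z n))
          (s := ball t δ ∩ Icc 0 1) ?_ (fun _ _ => by simp) ((convex_ball t δ).inter (convex_Icc 0 1))
          ⟨mem_ball_self hδ, ht⟩ hs
        intro x hx
        have h6 : R / 4 < ‖z x‖ := hδs hx
        have h7 := (hz x hx.2).mono (inter_subset_right : ball t δ ∩ Icc 0 1 ⊆ Icc 0 1)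
        rwa [XH_congr (hHz _ h6), XH_zero] at h7
      rw [zero_mul] at h5
      exact sub_eq_zero.1 (norm_le_zero_iff.1 h5))
    rcases h1 with h1 | h1
    · intro t ht
      exact mem_closedBall_zero_iff.1 (h1 t ht)
    · intro t ht
      rw [h1 t ht]
      linarith
  have hzR : ∀ t ∈ Icc (0 : ℝ) 1, z t ∈ ball (0 : Z n) R := fun t ht => by
    rw [mem_ball_zero_iff]
    linarith [hbd t ht]
  refine ⟨fun t => J (z t), ⟨hJc.comp hzc hzR, ?_⟩, ?_, ?_⟩
  · intro F t ht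
    have h1 : HasFDerivAt (fun w => F (J w)) (fderiv ℝ (fun w => F (J w)) (z t)) (z t) :=
      ((hFJ F _ (hzR t ht)).differentiableAt (by simp)).hasFDerivAt
    have h2 := h1.comp_hasDerivWithinAt t (hz t ht)
    rw [fderiv_XH] at h2
    have h3 : pb H (fun w => F (J w)) (z t) = π.br K F (J (z t)) := by
      rw [hJ.bracket K F (z t) (hzR t ht)]
      unfold pb gP gQ
      rw [(hHJ (z t) (by linarith [hbd t ht])).fderiv_eq]
    rw [h3] at h2
    exact h2
  · have h1 : z 0 = ((z 0).1, 0) := Prod.ext rfl hz0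
    have h2 := hzR 0 (left_mem_Icc.2 zero_le_one)
    show J (z 0) ∈ N
    rw [h1] at h2 ⊢
    exact hJ.real _ h2
  · have h1 : z 1 ∈ ball (0 : Z n) ε := by
      rw [mem_ball_zero_iff]; linarith
    exact hεB h1

end CoP
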