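import Mathlib
import Pool.Agent.Lib.CoP.B.Curve

/-!
# CoP.B.Push (about 250 lines): a small function whose curves push `{f = g = 0}` off a ball

`{f, g}(p) > 0`, `f p = g p = 0`, `O` a neighbourhood of `p`. Choose `m = {f,g}(p)/2`, `ρ` a bump with compact support, `tsupport ρ ⊆ O ∩ {m < {f,g}}`, `ρ = 1` on an open `V₁ ∋ p`; `β` a bump with `tsupport β ⊆ V₁`, `β p = 1`. Let `C ≥ 1` bound `|{ρ,f}|, |{ρ,g}|, |ρ {f,β}|, |f {ρ,β}|` on `M` (continuous with compact support in `tsupport ρ`; `{ρ, ·} = 0` off `tsupport ρ` by `br_const`). `a = 1/(8 C)`. `B' = {x | 3/4 < β x ∧ |g x| < a m / 4}` (open, contains `p`).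
Given `0 < ε` put `ε' = min ε 1 / 2`, `χ` smooth on `ℝ`, `χ = 1` on `[-ε', ε']`, `χ = 0` off `[-2ε', 2ε']`, `0 ≤ χ ≤ 1` (`ContDiffBump`), `K = a f χ(f) ρ`. `|K| ≤ a 2ε' ≤ ε`. `tsupport K ⊆ tsupport ρ ⊆ O`. If `|f y| < ε'` then `K = a f ρ` near `y`, so `{K, F}(y) = a (f y {ρ,F}(y) + ρ y {f,F}(y))` (`br_local`, `leibniz`, `smul_left`).
`ν > 0` so small that `ν e² < ε'`, `ν e² C ≤ m/2`, `ν ≤ a m / 4`. Let `x` be a curve of `K` with `|f (x 0)| < ν`, `|g (x 0)| < ν`, `x 1 ∈ B'`.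
(1) `|f (x t)| ≤ ν e^{t}` for all `t`: `image_norm_le_of_norm_deriv_right_lt_deriv_boundary'` with `B t = ν e^{t}`: if `|f (x t)| = B t < ε'` then `|(f ∘ x)'| = |a f {ρ,f}| ≤ a C B t < B t` (`{f,f} = 0` by skewness).
(2) so `{K,F}(x t) = a (f {ρ,F} + ρ {f,F})(x t)` for all `t`. `F = β`: `|(β ∘ x)'| ≤ 2 a C = 1/4`, so `β (x t) ≥ β (x 1) - 1/4 > 1/2 > 0`, `x t ∈ V₁` for all `t`, `ρ (x t) = 1`, `{f,g}(x t) > m`.
(3) `F = g`: `(g ∘ x)' = a (f {ρ,g} + {f,g}) ≥ a (m - ν e² C) ≥ a m / 2` so `g (x 1) ≥ g (x 0) + a m / 2 > a m / 2 - ν ≥ a m / 4`: contradiction with `|g (x 1)| < a m / 4`.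
-/

open Set Filter Metric
open scoped Topology ContDiff Manifold

noncomputable section

namespace CoP

variable {E : Type*} [NormedAddCommGroup E] [NormedSpace ℝ E] [FiniteDimensional ℝ E]
  {M : Type*} [TopologicalSpace M] [ChartedSpace E M] [IsManifold 𝓘(ℝ, E) ∞ M] [T2Space M]

omit [FiniteDimensional ℝ E] [IsManifold 𝓘(ℝ, E) ∞ M] [T2Space M] in
private theorem push_cont (F : C^∞⟮𝓘(ℝ, E), M; ℝ⟯) : Continuous F := F.contMDiff.continuous

omit [FiniteDimensional ℝ E] [IsManifold 𝓘(ℝ, E) ∞ M] [T2Space M] in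
private theorem push_bdd {S : Set M} (hS : IsCompact S) (F : C^∞⟮𝓘(ℝ, E), M; ℝ⟯)
    (hF : ∀ x ∉ S, F x = 0) : ∃ C : ℝ, 0 ≤ C ∧ ∀ x, |F x| ≤ C := by
  obtain ⟨C, hC⟩ := hS.exists_bound_of_continuousOn (push_cont F).continuousOn
  refine ⟨max C 0, le_max_right _ _, fun x => ?_⟩
  by_cases hx : x ∈ S
  · exact (hC x hx).trans (le_max_left _ _)
  · rw [hF x hx, abs_zero]
    exact le_max_right _ _

private theorem push_deriv {y : ℝ → ℝ} {y' t : ℝ} (ht : t ∈ Ico (0 : ℝ) 1)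
    (h : HasDerivWithinAt y y' (Icc 0 1) t) : HasDerivWithinAt y y' (Ici t) t :=
  h.mono_of_mem_nhdsWithin (mem_of_superset (Icc_mem_nhdsGE ht.2) (Icc_subset_Icc_left ht.1))

theorem push (π : Poisson E M) {f g : C^∞⟮𝓘(ℝ, E), M; ℝ⟯} {p : M} (hf : f p = 0) (hg : g p = 0)
    (hfg : 0 < π.br f g p) {O : Set M} (hO : O ∈ 𝓝 p) :
    ∃ B' : Set M, IsOpen B' ∧ p ∈ B' ∧ ∀ ε > (0 : ℝ), ∃ (K : C^∞⟮𝓘(ℝ, E), M; ℝ⟯) (ν : ℝ), 0 < ν ∧
      tsupport K ⊆ O ∧ (∀ x, |K x| ≤ ε) ∧
      ∀ x : ℝ → M, IsCurve π K x → |f (x 0)| < ν → |g (x 0)| < ν → x 1 ∉ B' := by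
  classical
  obtain ⟨m, hm⟩ : ∃ m, m = π.br f g p / 2 := ⟨_, rfl⟩
  have hm0 : 0 < m := by rw [hm]; linarith
  have hO1 : O ∩ {x | m < π.br f g x} ∈ 𝓝 p := by
    refine inter_mem hO ((isOpen_lt continuous_const (push_cont _)).mem_nhds ?_)
    change m < π.br f g p
    rw [hm]; linarith
  obtain ⟨ρ, hρ1, hρO, hρc, hρ0, hρle⟩ := exists_bump (E := E) p hO1
  obtain ⟨β, hβ1, hβV, -, -, -⟩ := exists_bump (E := E) p (O := {x | ρ x = 1}) hρ1
  have hbr0 : ∀ (F : C^∞⟮𝓘(ℝ, E), M; ℝ⟯) x, x ∉ tsupport ρ → π.br ρ F x = 0 := by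
    intro F x hx
    exact br_const π (notMem_tsupport_iff_eventuallyEq.1 hx)
  obtain ⟨C1, hC10, hC1⟩ := push_bdd hρc (π.br ρ f) (hbr0 f)
  obtain ⟨C2, hC20, hC2⟩ := push_bdd hρc (π.br ρ g) (hbr0 g)
  obtain ⟨C3, hC30, hC3⟩ := push_bdd hρc (f * π.br ρ β) (fun x hx => by
    change f x * π.br ρ β x = 0
    rw [hbr0 β x hx, mul_zero])
  obtain ⟨C4, hC40, hC4⟩ := push_bdd hρc (ρ * π.br f β) (fun x hx => by
    change ρ x * π.br f β x = 0
    rw [image_eq_zero_of_notMem_tsupport hx, zero_mul])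
  obtain ⟨C, hCdef⟩ : ∃ C, C = C1 + C2 + C3 + C4 + 1 := ⟨_, rfl⟩
  have hC : 1 ≤ C := by rw [hCdef]; linarith
  have hC0 : 0 < C := by linarith
  have hCf : ∀ x, |π.br ρ f x| ≤ C := fun x => (hC1 x).trans (by rw [hCdef]; linarith)
  have hCg : ∀ x, |π.br ρ g x| ≤ C := fun x => (hC2 x).trans (by rw [hCdef]; linarith)
  have hCb : ∀ x, |f x * π.br ρ β x| ≤ C := fun x => (hC3 x).trans (by rw [hCdef]; linarith)
  have hCb' : ∀ x, |ρ x * π.br f β x| ≤ C := fun x => (hC4 x).trans (by rw [hCdef]; linarith)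
  obtain ⟨a, ha⟩ : ∃ a, a = 1 / (8 * C) := ⟨_, rfl⟩
  have ha0 : 0 < a := by rw [ha]; positivity
  have haC : a * C = 1 / 8 := by rw [ha]; field_simp
  have ha1 : a ≤ 1 := by nlinarith
  refine ⟨{x | 3 / 4 < β x ∧ |g x| < a * m / 4}, ?_, ?_, ?_⟩
  · exact (isOpen_lt continuous_const (push_cont β)).inter
      (isOpen_lt (push_cont g).abs continuous_const)
  · refine ⟨?_, ?_⟩
    · rw [hβ1.self_of_nhds]; norm_num
    · rw [hg, abs_zero]; positivity
  intro ε hε
  obtain ⟨ε', hε'⟩ : ∃ ε', ε' = min ε 1 / 2 := ⟨_, rfl⟩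
  have hε'0 : 0 < ε' := by rw [hε']; positivity
  have hε'ε : 2 * ε' ≤ ε := by
    have := min_le_left ε 1
    rw [hε']; linarith
  let χ : ContDiffBump (0 : ℝ) := ⟨ε', 2 * ε', hε'0, by linarith⟩
  have hχs : ContMDiff 𝓘(ℝ, E) 𝓘(ℝ, ℝ) ∞ (fun x => χ (f x)) :=
    (χ.contDiff (n := ⊤)).contMDiff.comp f.contMDiff
  obtain ⟨X, hX⟩ : ∃ X : C^∞⟮𝓘(ℝ, E), M; ℝ⟯, ∀ x, X x = χ (f x) := ⟨⟨_, hχs⟩, fun _ => rfl⟩
  obtain ⟨K, hK⟩ : ∃ K : C^∞⟮𝓘(ℝ, E), M; ℝ⟯, K = a • (f * X * ρ) := ⟨_, rfl⟩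
  have hKx : ∀ x, K x = a * (f x * χ (f x) * ρ x) := by
    intro x
    rw [hK, ← hX]
    rfl
  have hEx : (0 : ℝ) < Real.exp 1 := Real.exp_pos 1
  obtain ⟨ν, hν0, hν1, hν2, hν3⟩ : ∃ ν : ℝ, 0 < ν ∧ ν * Real.exp 1 < ε' ∧
      ν * Real.exp 1 * C ≤ m / 2 ∧ ν ≤ a * m / 4 := by
    refine ⟨min (ε' / (2 * Real.exp 1)) (min (m / (2 * Real.exp 1 * C)) (a * m / 4)),
      by positivity, ?_, ?_, ?_⟩
    · have h1 := min_le_left (ε' / (2 * Real.exp 1))
        (min (m / (2 * Real.exp 1 * C)) (a * m / 4))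
      calc _ ≤ ε' / (2 * Real.exp 1) * Real.exp 1 := by gcongr
        _ = ε' / 2 := by field_simp
        _ < ε' := by linarith
    · have h1 : min (ε' / (2 * Real.exp 1)) (min (m / (2 * Real.exp 1 * C)) (a * m / 4)) ≤
        m / (2 * Real.exp 1 * C) := (min_le_right _ _).trans (min_le_left _ _)
      calc _ ≤ m / (2 * Real.exp 1 * C) * Real.exp 1 * C := by gcongr
        _ = m / 2 := by field_simp
    · exact (min_le_right _ _).trans (min_le_right _ _)
  have hloc : ∀ y, |f y| < ε' → ∀ F : C^∞⟮𝓘(ℝ, E), M; ℝ⟯,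
      π.br K F y = a * (f y * π.br ρ F y + ρ y * π.br f F y) := by
    intro y hy F
    have h1 : π.br K F y = π.br (a • (f * ρ)) F y := by
      refine br_local π ?_ (Filter.Eventually.of_forall fun _ => rfl)
      have h2 : {q | |f q| < ε'} ∈ 𝓝 y :=
        (isOpen_lt (push_cont f).abs continuous_const).mem_nhds hy
      filter_upwards [h2] with q hq
      have h3 : χ (f q) = 1 := by
        refine χ.one_of_mem_closedBall ?_
        rw [mem_closedBall, Real.dist_eq, sub_zero]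
        exact le_of_lt hq
      rw [hKx, h3, mul_one]
      rfl
    rw [h1, π.smul_left, π.leibniz]
    rfl
  refine ⟨K, ν, hν0, ?_, ?_, ?_⟩
  · have h1 : tsupport K ⊆ tsupport ρ := by
      refine closure_mono fun x hx => ?_
      rw [Function.mem_support] at hx ⊢
      intro h2
      rw [hKx, h2, mul_zero, mul_zero] at hx
      exact hx rfl
    exact h1.trans (hρO.trans inter_subset_left)
  · intro x
    have h1 : |f x * χ (f x)| ≤ 2 * ε' := by
      by_cases h2 : |f x| < 2 * ε'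
      · rw [abs_mul, abs_of_nonneg χ.nonneg]
        calc |f x| * χ (f x) ≤ |f x| * 1 := by gcongr; exact χ.le_one
          _ ≤ 2 * ε' := by rw [mul_one]; exact h2.le
      · have h3 : χ (f x) = 0 := by
          refine χ.zero_of_le_dist ?_
          rw [Real.dist_eq, sub_zero]
          exact not_lt.1 h2
        rw [h3, mul_zero, abs_zero]
        linarith
    rw [hKx, abs_mul, abs_of_pos ha0, abs_mul, abs_of_nonneg (hρ0 x)]
    have hρ0x := hρ0 x
    have hρlex := hρle x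
    calc a * (|f x * χ (f x)| * ρ x) ≤ 1 * ((2 * ε') * 1) := by
          have h2 : |f x * χ (f x)| * ρ x ≤ (2 * ε') * 1 :=
            mul_le_mul h1 hρlex hρ0x (by positivity)
          have h3 : 0 ≤ |f x * χ (f x)| * ρ x := mul_nonneg (abs_nonneg _) hρ0x
          exact mul_le_mul ha1 h2 h3 zero_le_one
      _ = 2 * ε' := by ring
      _ ≤ ε := hε'ε
  · intro x hx hf0 hg0 hx1
    -- (1)
    have hskew : ∀ y, π.br f f y = 0 := by
      intro y
      have h1 : π.br f f y = -π.br f f y :=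
        congrArg (fun h : C^∞⟮𝓘(ℝ, E), M; ℝ⟯ => h y) (π.skew f f)
      linarith
    have hexp : ∀ t ∈ Icc (0 : ℝ) 1, ν * Real.exp t < ε' := by
      intro t ht
      refine lt_of_le_of_lt ?_ hν1
      gcongr
      exact ht.2
    have hfb : ∀ t ∈ Icc (0 : ℝ) 1, |f (x t)| ≤ ν * Real.exp t := by
      have h1 := image_norm_le_of_norm_deriv_right_lt_deriv_boundary'
        (f := fun t => f (x t)) (f' := fun t => π.br K f (x t)) (a := 0) (b := 1)
        (B := fun t => ν * Real.exp t) (B' := fun t => ν * Real.exp t)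
        (fun t ht => (hx.deriv f t ht).continuousWithinAt)
        (fun t ht => push_deriv ht (hx.deriv f t (Ico_subset_Icc_self ht)))
        (by rw [Real.exp_zero, mul_one]; exact hf0.le)
        (by fun_prop)
        (fun t _ => ((Real.hasDerivAt_exp t).const_mul ν).hasDerivWithinAt)
        (fun t ht hft => by
          have h2 := hexp t (Ico_subset_Icc_self ht)
          rw [Real.norm_eq_abs] at hft
          rw [hloc (x t) (by rw [hft]; exact h2) f, hskew, mul_zero, add_zero, Real.norm_eq_abs,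
            abs_mul, abs_mul, abs_of_pos ha0, hft]
          have h3 : 0 < ν * Real.exp t := by positivity
          calc a * (ν * Real.exp t * |π.br ρ f (x t)|) ≤ a * (ν * Real.exp t * C) := by
                gcongr
                exact hCf _
            _ = (a * C) * (ν * Real.exp t) := by ring
            _ = 1 / 8 * (ν * Real.exp t) := by rw [haC]
            _ < ν * Real.exp t := by linarith)
      exact fun t ht => h1 ht
    have hfe : ∀ t ∈ Icc (0 : ℝ) 1, |f (x t)| ≤ ν * Real.exp 1 := fun t ht =>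
      (hfb t ht).trans (by gcongr; exact ht.2)
    have hfε : ∀ t ∈ Icc (0 : ℝ) 1, |f (x t)| < ε' := fun t ht => (hfe t ht).trans_lt hν1
    -- (2)
    have h1m : (1 : ℝ) ∈ Icc (0 : ℝ) 1 := ⟨zero_le_one, le_rfl⟩
    have hβx : ∀ t ∈ Icc (0 : ℝ) 1, 0 < β (x t) := by
      intro t ht
      have h1 := Convex.norm_image_sub_le_of_norm_hasDerivWithin_le
        (f := fun t => β (x t)) (f' := fun t => π.br K β (x t)) (C := 1 / 4) (s := Icc 0 1)
        (hx.deriv β) (fun s hs => by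
          rw [hloc (x s) (hfε s hs) β, Real.norm_eq_abs, abs_mul, abs_of_pos ha0]
          calc a * |f (x s) * π.br ρ β (x s) + ρ (x s) * π.br f β (x s)|
              ≤ a * (C + C) := by
                gcongr
                exact (abs_add_le _ _).trans (add_le_add (hCb _) (hCb' _))
            _ = 2 * (a * C) := by ring
            _ = 1 / 4 := by rw [haC]; norm_num) (convex_Icc 0 1) ht h1m
      rw [Real.norm_eq_abs, Real.norm_eq_abs] at h1
      have h2 : |1 - t| ≤ 1 := by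
        rw [abs_le]
        constructor <;> linarith [ht.1, ht.2]
      have h3 : |β (x 1) - β (x t)| ≤ 1 / 4 := h1.trans (by nlinarith [abs_nonneg (1 - t)])
      have h4 := (abs_le.1 h3).2
      have h5 : 3 / 4 < β (x 1) := hx1.1
      linarith
    have hρx : ∀ t ∈ Icc (0 : ℝ) 1, ρ (x t) = 1 := fun t ht =>
      hβV (subset_tsupport _ (by rw [Function.mem_support]; exact (hβx t ht).ne'))
    have hmx : ∀ t ∈ Icc (0 : ℝ) 1, m < π.br f g (x t) := fun t ht =>
      (hρO (subset_tsupport _ (by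
        rw [Function.mem_support, hρx t ht]; exact one_ne_zero))).2
    -- (3)
    have h3 := image_le_of_deriv_right_le_deriv_boundary
      (f := fun t => g (x 0) + a * m / 2 * t) (f' := fun _ => a * m / 2) (a := 0) (b := 1)
      (B := fun t => g (x t)) (B' := fun t => π.br K g (x t))
      (by fun_prop)
      (fun t _ => by
        have h4 := ((hasDerivAt_id t).const_mul (a * m / 2)).const_add (g (x 0))
        rw [mul_one] at h4
        exact h4.hasDerivWithinAt)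
      (by simp)
      (fun t ht => (hx.deriv g t ht).continuousWithinAt)
      (fun t ht => push_deriv ht (hx.deriv g t (Ico_subset_Icc_self ht)))
      (fun t ht => by
        have ht' := Ico_subset_Icc_self ht
        rw [hloc (x t) (hfε t ht') g, hρx t ht', one_mul]
        have h4 : |f (x t) * π.br ρ g (x t)| ≤ m / 2 := by
          rw [abs_mul]
          calc |f (x t)| * |π.br ρ g (x t)| ≤ (ν * Real.exp 1) * C := by
                gcongr
                · exact hfe t ht'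
                · exact hCg _
            _ ≤ m / 2 := hν2
        have h5 := (abs_le.1 h4).1
        have h6 := hmx t ht'
        have h7 : m / 2 ≤ f (x t) * π.br ρ g (x t) + π.br f g (x t) := by linarith
        calc a * m / 2 = a * (m / 2) := by ring
          _ ≤ _ := by gcongr)
      h1m
    have h4 : |g (x 1)| < a * m / 4 := hx1.2
    have h5 := (abs_lt.1 h4).2
    have h6 := (abs_lt.1 hg0).1
    have h7 : g (x 0) + a * m / 2 * 1 ≤ g (x 1) := h3
    linarith

end CoP
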