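import Mathlib
import Pool.Agent.Lib.CoP.B.Push
import Pool.Agent.Lib.CoP.B.Posit
import Pool.Agent.Lib.CoP.B.Arens

/-!
# CoP.B.Main: Poisson homeomorphisms preserve coisotropic submanifolds (assembly, helper7)
-/

open Set Filter Metric
open scoped Topology ContDiff Manifold

noncomputable section

namespace CoP

variable {E : Type*} [NormedAddCommGroup E] [NormedSpace ℝ E] [FiniteDimensional ℝ E]
  {M : Type*} [TopologicalSpace M] [ChartedSpace E M] [IsManifold 𝓘(ℝ, E) ∞ M] [T2Space M]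

/-- Uniformly on compact sets: if `φ` maps the compact set `A` into the open set `O`, so does `ψ_k`
for large `k`. -/
private theorem eventually_mapsTo {X : Type*} [TopologicalSpace X] {ψ : ℕ → C(X, X)} {φ : C(X, X)}
    (h : Tendsto ψ atTop (𝓝 φ)) {A O : Set X} (hA : IsCompact A) (hO : IsOpen O)
    (hφ : MapsTo φ A O) : ∀ᶠ k in atTop, MapsTo (ψ k) A O :=
  h.eventually ((ContinuousMap.isOpen_setOfPred_mapsTo hA hO).mem_nhds hφ)

private theorem main_aux (π : Poisson E M) {φ : M ≃ₜ M} (hφ : IsPoissonHomeo π φ) {N : Set M}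
    (hN : IsSubmanifold E N) (hc : IsCoisotropic π N) (f g : C^∞⟮𝓘(ℝ, E), M; ℝ⟯)
    (hf : ∀ x ∈ φ '' N, f x = 0) (hg : ∀ x ∈ φ '' N, g x = 0) (p0 : M) (hp0 : p0 ∈ N)
    (hpos : 0 < π.br f g (φ p0)) : False := by
  have : ProperSpace E := FiniteDimensional.proper ℝ E
  have : LocallyCompactSpace M := ChartedSpace.locallyCompactSpace E M
  have : LocallyConnectedSpace M := ChartedSpace.locallyConnectedSpace E M
  obtain ⟨ψ, hψ, hlim⟩ := hφ
  have hbr : Continuous fun y => π.br f g (φ y) :=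
    (π.br f g).contMDiff.continuous.comp φ.continuous
  have hO1 : IsOpen {y : M | 0 < π.br f g (φ y)} := isOpen_lt continuous_const hbr
  obtain ⟨n, R, J, hJ, hJN, hJO⟩ := exists_adapted π hN hc hO1 hp0 hpos
  set p := J 0 with hp
  have hpos' : 0 < π.br f g (φ p) := hJO
  obtain ⟨U, hU, hpU, hpositive⟩ := posit π hJ
  obtain ⟨e, he, hpe, V, hV⟩ := hN p hJN
  -- the compact neighbourhood `K₀` of `p`
  obtain ⟨K₀, hK₀, hpK₀, hK₀U⟩ := exists_compact_subset (hU.inter e.open_source) ⟨hpU, hpe⟩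
  have hNK : IsCompact (N ∩ K₀) := by
    have h1 : IsClosed {v : E | v - e p ∈ V} :=
      (V.closed_of_finiteDimensional).preimage (continuous_id.sub continuous_const)
    have h2 : IsClosed (K₀ ∩ e ⁻¹' {v : E | v - e p ∈ V}) :=
      ContinuousOn.preimage_isClosed_of_isClosed
        (e.continuousOn.mono fun y hy => (hK₀U hy).2) hK₀.isClosed h1
    have h3 : N ∩ K₀ = K₀ ∩ e ⁻¹' {v : E | v - e p ∈ V} := by
      ext y
      constructor
      · rintro ⟨h4, h5⟩
        exact ⟨h5, (hV y (hK₀U h5).2).mp h4⟩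
      · rintro ⟨h4, h5⟩
        exact ⟨(hV y (hK₀U h4).2).mpr h5, h4⟩
    rw [h3]
    exact hK₀.of_isClosed_subset h2 inter_subset_left
  have hclD : closure (interior K₀) ⊆ K₀ := closure_minimal interior_subset hK₀.isClosed
  -- the connected neighbourhood `O` of `φ p`
  have hφD : IsOpen (φ '' interior K₀) := φ.isOpenMap _ isOpen_interior
  obtain ⟨K₁, hK₁, hpK₁, hK₁D⟩ := exists_compact_subset hφD ⟨p, hpK₀, rfl⟩
  obtain ⟨O, hOK, hOo, hpO, hOc⟩ := (locallyConnectedSpace_iff_subsets_isOpen_isConnected.mp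
    inferInstance) (φ p) (interior K₁) (isOpen_interior.mem_nhds hpK₁)
  have hclO : closure O ⊆ φ '' interior K₀ :=
    (closure_minimal (hOK.trans interior_subset) hK₁.isClosed).trans hK₁D
  have har := arens (fun k => (ψ k).toHomeomorph) φ hlim isOpen_interior
    (hK₀.of_isClosed_subset isClosed_closure hclD) hpK₀ hOo hOc.isPreconnected hpO hclO
  -- push off
  obtain ⟨B', hB'o, hpB', hpush⟩ := push π (hf _ ⟨p, hJN, rfl⟩) (hg _ ⟨p, hJN, rfl⟩) hpos'
    (hOo.mem_nhds hpO)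
  obtain ⟨K₂, hK₂, hpK₂, hK₂B⟩ := exists_compact_subset
    (isOpen_interior.inter (hB'o.preimage φ.continuous)) (show p ∈ interior K₀ ∩ φ ⁻¹' B' from
      ⟨hpK₀, hpB'⟩)
  obtain ⟨c, hc0, hcpos⟩ := hpositive K₂ (mem_interior_iff_mem_nhds.mp hpK₂)
  obtain ⟨K, ν, hν, hKO, hKc, hcurve⟩ := hpush c hc0
  -- large k
  have e1 := eventually_mapsTo hlim hK₂ hB'o (fun y hy => (hK₂B hy).2)
  have hS : IsOpen {y : M | |f y| < ν ∧ |g y| < ν} := by
    refine IsOpen.inter ?_ ?_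
    · exact isOpen_lt f.contMDiff.continuous.abs continuous_const
    · exact isOpen_lt g.contMDiff.continuous.abs continuous_const
  have e2 := eventually_mapsTo hlim hNK hS (by
    intro y hy
    have h1 : f (φ y) = 0 := hf _ ⟨y, hy.1, rfl⟩
    have h2 : g (φ y) = 0 := hg _ ⟨y, hy.1, rfl⟩
    show |f (φ y)| < ν ∧ |g (φ y)| < ν
    rw [h1, h2, abs_zero]
    exact ⟨hν, hν⟩)
  obtain ⟨k, ⟨hk1, hk2⟩, hk3⟩ := ((e1.and e2).and har).exists
  let Ψ : C^∞⟮𝓘(ℝ, E), M; 𝓘(ℝ, E), M⟯ := ⟨ψ k, (ψ k).contMDiff⟩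
  have hsupp : tsupport (K.comp Ψ) ⊆ interior K₀ := by
    have h1 : tsupport (K.comp Ψ) ⊆ (ψ k) ⁻¹' (tsupport K) := by
      refine closure_minimal ?_ ((isClosed_tsupport _).preimage (ψ k).continuous)
      intro y hy
      exact subset_tsupport _ hy
    intro y hy
    exact hk3 (subset_closure (hKO (h1 hy)))
  obtain ⟨x, hx, hx0, hx1⟩ := hcpos (K.comp Ψ)
    (hsupp.trans fun y hy => (hK₀U (interior_subset hy)).1) (fun y => hKc _)
  have hx0K : x 0 ∈ K₀ := by
    rcases hx.const_or_mem with h | h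
    · exact interior_subset (hsupp (h 0 ⟨le_rfl, zero_le_one⟩))
    · rw [h 0 ⟨le_rfl, zero_le_one⟩]
      exact interior_subset (hK₂B hx1).1
  have hy := IsCurve.comp (hψ k) hx
  have h1 := hk2 (show x 0 ∈ N ∩ K₀ from ⟨hx0, hx0K⟩)
  exact hcurve _ hy h1.1 h1.2 (hk1 hx1)

theorem main (π : Poisson E M) {φ : M ≃ₜ M} (hφ : IsPoissonHomeo π φ) {N : Set M}
    (hN : IsSubmanifold E N) (hc : IsCoisotropic π N) : IsCoisotropic π (φ '' N) := by
  intro f g hf hg x hx
  obtain ⟨p0, hp0, rfl⟩ := hx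
  rcases lt_trichotomy (π.br f g (φ p0)) 0 with h | h | h
  · exfalso
    refine main_aux π hφ hN hc g f hg hf p0 hp0 ?_
    have h1 : π.br g f (φ p0) = -(π.br f g (φ p0)) := by
      rw [π.skew g f]
      rfl
    rw [h1]
    linarith
  · exact h
  · exact (main_aux π hφ hN hc f g hf hg p0 hp0 h).elim

end CoP
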